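import Pool.Agent.V11230.PoolIn

/-!
# Pooling problem with one quality and in-degrees at most two: strong NP-hardness

Reduction from vertex cover. Every vertex `u` gives a pool with a bad input (quality value one,
supply one, reward one per unit), a good input (quality value zero) and a lenient output (bound one).
Every edge gives a strict output (bound zero, capacity one) with arcs of reward two from the pools of
its two ends. A pool with inflow of bad quality sends nothing to strict outputs. So the reward is at
most `n - |C| + 2 |{edges with an end in C}|`, where `C` is the set of pools without inflow of bad
quality, and the reward `2 |E| + n - k` can be obtained if and only if there is a vertex cover with at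
most `k` vertices.
-/

namespace Pool.Agent.Results.MP_975cd4_lc.InDegTwoNPHard

open Pool.Agent.NPC Pool.Agent.NPC.V11230.Pooling

/-- The pooling problem with one quality in which all pools and outputs have in-degree at most two is
strongly NP-hard. -/
theorem result : NPHardP PoolingInTwo := InTwo.hardPr.toHardI.toNPHardP

end Pool.Agent.Results.MP_975cd4_lc.InDegTwoNPHard
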